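import Pool.Agent.W626.AH.Stm

/-!
# AH-SCA: rescaling
-/

set_option autoImplicit false

namespace Pool.Agent.W103.AH

open Pool.Agent.H67R3.RHDefs Pool.Agent.W626.AH

theorem main : Pool.Agent.W626.AH.S_dat → Pool.Agent.W626.AH.S_sca := by
  intro hdat G _ n a hG
  obtain ⟨_, S, i1, i2, hiso, hgeo, ⟨δ, hδ⟩, hacy, s, hunb⟩ := hG
  have hsum : 0 ≤ ∑ i : Fin n, dist s (a i • s) := Finset.sum_nonneg fun _ _ => dist_nonneg
  set D : ℝ := max δ 0 + ∑ i : Fin n, dist s (a i • s) + 1 with hD
  have hm0 : 0 ≤ max δ 0 := le_max_right _ _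
  have hDpos : 0 < D := by linarith
  set lam : ℝ := 1 / D with hlam
  have hl : 0 < lam := by positivity
  have hlD : lam * D = 1 := by rw [hlam]; field_simp
  have hl1 : ∀ t : ℝ, t ≤ D → lam * t ≤ 1 := by
    intro t ht
    rw [← hlD]
    exact mul_le_mul_of_nonneg_left ht hl.le
  let d : S → S → ℝ := fun x y => lam * dist x y
  have hPD : PD d := by
    refine ⟨fun x => ?_, fun x y => ?_, fun x y z => ?_⟩
    · show lam * dist x x = 0
      rw [dist_self, mul_zero]
    · show lam * dist x y = lam * dist y x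
      rw [dist_comm]
    · show lam * dist x z ≤ lam * dist x y + lam * dist y z
      rw [← mul_add]
      exact mul_le_mul_of_nonneg_left (dist_triangle x y z) hl.le
  have hH1 : H1 d := by
    intro x y z w
    show lam * dist x y + lam * dist z w ≤ max (lam * dist x z + lam * dist y w)
      (lam * dist x w + lam * dist y z) + 1
    rw [← mul_add, ← mul_add, ← mul_add, ← mul_max_of_nonneg _ _ hl.le]
    have h1 := mul_le_mul_of_nonneg_left (hδ x y z w) hl.le
    have h2 := hl1 δ (by have := le_max_left δ 0; linarith)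
    rw [mul_add lam (max _ _) δ] at h1
    linarith
  have hMid : Mid d := by
    intro x y u v hu huv hv
    have hv' : v / lam ≤ dist x y := by
      rw [div_le_iff₀ hl, mul_comm]
      exact hv
    have huv' : u / lam ≤ v / lam := div_le_div_of_nonneg_right huv hl.le
    have hu' : 0 ≤ u / lam := div_nonneg hu hl.le
    obtain ⟨γ, h0, h1, h2⟩ := hgeo x y
    have e1 := h2 0 (u / lam) le_rfl hu' (huv'.trans hv')
    have e2 := h2 0 (v / lam) le_rfl (hu'.trans huv') hv'
    have e3 := h2 (u / lam) (dist x y) hu' (huv'.trans hv') le_rfl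
    have e4 := h2 (v / lam) (dist x y) (hu'.trans huv') hv' le_rfl
    have e5 := h2 (u / lam) (v / lam) hu' huv' hv'
    rw [h0] at e1 e2
    rw [h1] at e3 e4
    refine ⟨γ (u / lam), γ (v / lam), ?_, ?_, ?_, ?_, ?_⟩
    · show lam * dist x (γ (u / lam)) = u
      rw [e1]; field_simp; ring
    · show lam * dist (γ (u / lam)) y = lam * dist x y - u
      rw [e3]; field_simp
    · show lam * dist x (γ (v / lam)) = v
      rw [e2]; field_simp; ring
    · show lam * dist (γ (v / lam)) y = lam * dist x y - v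
      rw [e4]; field_simp
    · show lam * dist (γ (u / lam)) (γ (v / lam)) = v - u
      rw [e5]; field_simp
  have hIsom : Isom G d := by
    intro g x y
    show lam * dist (g • x) (g • y) = lam * dist x y
    rw [hiso]
  have hAcy : Acy G d := by
    intro ε hε
    obtain ⟨R, N, h⟩ := hacy (ε / lam) (div_pos hε hl)
    refine ⟨lam * R, N, fun x y hxy => ?_⟩
    have hxy' : R ≤ dist x y := le_of_mul_le_mul_left hxy hl
    have h3 := h x y hxy'
    have e : {g : G | d x (g • x) ≤ ε ∧ d y (g • y) ≤ ε} =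
        {g : G | dist x (g • x) ≤ ε / lam ∧ dist y (g • y) ≤ ε / lam} := by
      ext g
      show (lam * dist x (g • x) ≤ ε ∧ lam * dist y (g • y) ≤ ε) ↔
        (dist x (g • x) ≤ ε / lam ∧ dist y (g • y) ≤ ε / lam)
      rw [le_div_iff₀ hl, le_div_iff₀ hl, mul_comm lam, mul_comm lam]
    rw [e]
    exact h3
  have hUnb : Unb G d := by
    refine ⟨s, fun B => ?_⟩
    obtain ⟨g, hg⟩ := hunb (B / lam)
    refine ⟨g, ?_⟩
    show B < lam * dist s (g • s)
    rw [div_lt_iff₀ hl, mul_comm] at hg
    exact hg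
  obtain ⟨R, M, g, q, B, hGC⟩ := hdat G S d hPD hH1 hMid hIsom hAcy hUnb s
  refine ⟨_, R, M, g, q, B, hGC, fun h => ?_, fun i => ?_⟩
  · show 0 ≤ lam * dist s (h • s)
    exact mul_nonneg hl.le dist_nonneg
  · show lam * dist s (a i • s) ≤ 1
    apply hl1
    have := Finset.single_le_sum (f := fun i => dist s (a i • s)) (fun _ _ => dist_nonneg)
      (Finset.mem_univ i)
    linarith

end Pool.Agent.W103.AH
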